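import Mathlib

/-!
# The exponential growth rate of a weighted tree automaton over the natural numbers exists

For a state `q` let `v t q` be the sum of the weights of the runs on the tree `t` with the state `q` at
the root. The growth rate of `v · q` is shown to exist by induction on the number of states that can
be reached from `q`. Let `C` be the strongly connected component of `q`. By Fekete's lemma the growth
rate of the weights of contexts with both ends in `C` exists. In every run there is a path of nodes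
with states in `C` such that the states of the children of its last node are not in `C`. Hence the
growth rate is the maximum of the growth rate of the contexts and of the growth rates of the states
in lower components.
-/

set_option autoImplicit false

open Filter Topology

namespace Pool.Agent.Results.MP_7772c6_lc.TreeGrowth

/-! ## Trees, automata, runs -/

/-- Finite trees over a ranked alphabet: a node labelled `a` has `rank a` children. -/
inductive Tree {A : Type} (rank : A → ℕ) : Type
  | node (a : A) (ts : Fin (rank a) → Tree rank) : Tree rank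

/-- The number of nodes. -/
def size {A : Type} {rank : A → ℕ} : Tree rank → ℕ
  | .node _ ts => 1 + ∑ i, size (ts i)

/-- An `ℕ`-weighted tree automaton with the set `Q` of states. -/
structure Aut {A : Type} (rank : A → ℕ) (Q : Type) where
  /-- the weights of the transitions -/
  μ : (a : A) → (Fin (rank a) → Q) → Q → ℕ
  /-- the final weights -/
  final : Q → ℕ

/-- A run on a tree assigns a state to every node. -/
def Run {A : Type} {rank : A → ℕ} (Q : Type) : Tree rank → Type
  | .node a ts => Q × ((i : Fin (rank a)) → Run Q (ts i))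

/-- The state at the root. -/
def rootState {A : Type} {rank : A → ℕ} {Q : Type} : (t : Tree rank) → Run Q t → Q
  | .node _ _, ρ => ρ.1

/-- The product of the weights of the transitions of a run. -/
def weight {A : Type} {rank : A → ℕ} {Q : Type} (M : Aut rank Q) : (t : Tree rank) → Run Q t → ℕ
  | .node a ts, ρ => M.μ a (fun i => rootState (ts i) (ρ.2 i)) ρ.1 * ∏ i, weight M (ts i) (ρ.2 i)

/-- There are finitely many runs. -/
noncomputable instance runFintype {A : Type} {rank : A → ℕ} (Q : Type) [Fintype Q] :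
    (t : Tree rank) → Fintype (Run Q t)
  | .node a ts =>
    letI : ∀ i, Fintype (Run Q (ts i)) := fun i => runFintype Q (ts i)
    (inferInstance : Fintype (Q × ((i : Fin (rank a)) → Run Q (ts i))))

/-- The value of a tree: the sum of the weights of all runs, each multiplied by the final weight of
the state at the root. -/
noncomputable def value {A : Type} {rank : A → ℕ} {Q : Type} [Fintype Q] (M : Aut rank Q)
    (t : Tree rank) : ℕ :=
  ∑ ρ : Run Q t, weight M t ρ * M.final (rootState t ρ)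

/-- The growth function: the maximal value of a tree with at most `n` nodes. -/
noncomputable def growth {A : Type} {rank : A → ℕ} {Q : Type} [Fintype Q] (M : Aut rank Q)
    (n : ℕ) : ℕ :=
  sSup {x | ∃ t : Tree rank, size t ≤ n ∧ value M t = x}

/-- Exponential growth: `f n = 2 ^ Θ(n)`. -/
def ExpGrowth (f : ℕ → ℕ) : Prop :=
  ∃ c₁ c₂ : ℝ, 0 < c₁ ∧ 0 < c₂ ∧
    ∀ᶠ n : ℕ in atTop, (2 : ℝ) ^ (c₁ * n) ≤ f n ∧ (f n : ℝ) ≤ (2 : ℝ) ^ (c₂ * n)

/-! ## Fekete's lemma -/

theorem fekete (S : Set (ℕ × ℕ)) (B c : ℕ) (hB1 : 1 ≤ B) (hB : ∀ x ∈ S, x.2 ≤ B ^ x.1)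
    (hne : ∃ x ∈ S, 0 < x.2)
    (hmul : ∀ x ∈ S, ∀ y ∈ S, ∃ z ∈ S, z.1 ≤ x.1 + y.1 + c ∧ x.2 * y.2 ≤ z.2) :
    ∃ L : ℝ, 0 ≤ L ∧ (∀ x ∈ S, (x.2 : ℝ) ≤ Real.exp (L * (x.1 + c))) ∧
      ∀ ε : ℝ, 0 < ε → ∀ᶠ n : ℕ in atTop,
        ∃ x ∈ S, x.1 ≤ n ∧ Real.exp ((L - ε) * n) ≤ x.2 := by
  set f : ℕ → ℕ := fun n => sSup {m | ∃ x ∈ S, x.1 + c ≤ n ∧ x.2 = m} with hf
  have hbdd : ∀ n, BddAbove {m | ∃ x ∈ S, x.1 + c ≤ n ∧ x.2 = m} := by
    intro n
    refine ⟨B ^ n, ?_⟩
    rintro m ⟨x, hx, hxn, rfl⟩
    exact (hB x hx).trans (Nat.pow_le_pow_right hB1 (by omega))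
  have hle : ∀ n, ∀ x ∈ S, x.1 + c ≤ n → x.2 ≤ f n := fun n x hx hxn =>
    le_csSup (hbdd n) ⟨x, hx, hxn, rfl⟩
  have hatt : ∀ n, 0 < f n → ∃ x ∈ S, x.1 + c ≤ n ∧ x.2 = f n := by
    intro n hn
    have hne' : {m | ∃ x ∈ S, x.1 + c ≤ n ∧ x.2 = m}.Nonempty := by
      by_contra h
      rw [Set.not_nonempty_iff_eq_empty] at h
      simp only [hf, h] at hn
      simp at hn
    exact Nat.sSup_mem hne' (hbdd n)
  have hfB : ∀ n, f n ≤ B ^ n := by
    intro n
    rcases Nat.eq_zero_or_pos (f n) with h | h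
    · rw [h]; exact Nat.zero_le _
    · obtain ⟨x, hx, hxn, hx'⟩ := hatt n h
      rw [← hx']
      exact (hB x hx).trans (Nat.pow_le_pow_right hB1 (by omega))
  have hmono : ∀ m n, m ≤ n → f m ≤ f n := by
    intro m n hmn
    rcases Nat.eq_zero_or_pos (f m) with h | h
    · rw [h]; exact Nat.zero_le _
    · obtain ⟨x, hx, hxn, hx'⟩ := hatt m h
      rw [← hx']
      exact hle n x hx (by omega)
  set F : ℕ → ℕ := fun n => max 1 (f n) with hF
  have hF1 : ∀ n, 1 ≤ F n := fun n => le_max_left _ _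
  have hFmono : ∀ m n, m ≤ n → F m ≤ F n := fun m n h => max_le_max le_rfl (hmono m n h)
  have hFmul : ∀ m n, F m * F n ≤ F (m + n) := by
    intro m n
    rcases Nat.lt_or_ge 1 (f m) with h | h
    · rcases Nat.lt_or_ge 1 (f n) with h' | h'
      · obtain ⟨x, hx, hxm, hx'⟩ := hatt m (by omega)
        obtain ⟨y, hy, hyn, hy'⟩ := hatt n (by omega)
        obtain ⟨z, hz, hz1, hz2⟩ := hmul x hx y hy
        have e1 : F m = f m := max_eq_right h.le
        have e2 : F n = f n := max_eq_right h'.le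
        rw [e1, e2, ← hx', ← hy']
        exact hz2.trans ((hle (m + n) z hz (by omega)).trans (le_max_right _ _))
      · have e2 : F n = 1 := max_eq_left h'
        rw [e2, mul_one]
        exact hFmono _ _ (by omega)
    · have e1 : F m = 1 := max_eq_left h
      rw [e1, one_mul]
      exact hFmono _ _ (by omega)
  have hFB : ∀ n, F n ≤ B ^ n := fun n => max_le (Nat.one_le_pow _ _ hB1) (hfB n)
  set u : ℕ → ℝ := fun n => - Real.log (F n) with hu
  have hsub : Subadditive u := by
    intro m n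
    have h1 : (0 : ℝ) < F m := by exact_mod_cast hF1 m
    have h2 : (0 : ℝ) < F n := by exact_mod_cast hF1 n
    have h3 : (F m : ℝ) * F n ≤ F (m + n) := by exact_mod_cast hFmul m n
    have h4 := Real.log_le_log (mul_pos h1 h2) h3
    rw [Real.log_mul h1.ne' h2.ne'] at h4
    simp only [hu]
    linarith
  have hbd : BddBelow (Set.range fun n => u n / n) := by
    refine ⟨- Real.log B, ?_⟩
    rintro _ ⟨n, rfl⟩
    have hB0 : (1 : ℝ) ≤ B := by exact_mod_cast hB1
    have hlogB : 0 ≤ Real.log B := Real.log_nonneg hB0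
    rcases Nat.eq_zero_or_pos n with rfl | hn
    · simp [hlogB]
    · have hn' : (0 : ℝ) < n := by exact_mod_cast hn
      dsimp only
      rw [le_div_iff₀ hn']
      simp only [hu]
      have h1 : (0 : ℝ) < F n := by exact_mod_cast hF1 n
      have h2 : (F n : ℝ) ≤ (B : ℝ) ^ n := by exact_mod_cast hFB n
      have h3 := Real.log_le_log h1 h2
      rw [Real.log_pow] at h3
      linarith
  set L : ℝ := - hsub.lim with hL
  have hFL : ∀ n, (F n : ℝ) ≤ Real.exp (L * n) := by
    intro n
    rcases Nat.eq_zero_or_pos n with rfl | hn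
    · have : F 0 = 1 := le_antisymm ((hFB 0).trans (by simp)) (hF1 0)
      rw [this]
      simp
    · have h1 := hsub.lim_le_div hbd (n := n) (by omega)
      have hn' : (0 : ℝ) < n := by exact_mod_cast hn
      rw [le_div_iff₀ hn'] at h1
      have h2 : (0 : ℝ) < F n := by exact_mod_cast hF1 n
      rw [← Real.log_le_iff_le_exp h2]
      simp only [hu] at h1
      rw [hL]
      linarith
  have hL0 : 0 ≤ L := by
    have h1 := hFL 1
    have h2 : (1 : ℝ) ≤ F 1 := by exact_mod_cast hF1 1
    have h3 : Real.exp 0 ≤ Real.exp (L * (1 : ℕ)) := by rw [Real.exp_zero]; linarith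
    have h4 := Real.exp_le_exp.1 h3
    simpa using h4
  refine ⟨L, hL0, fun x hx => ?_, fun ε hε => ?_⟩
  · have h1 := hle (x.1 + c) x hx le_rfl
    have h2 : x.2 ≤ F (x.1 + c) := h1.trans (le_max_right _ _)
    have h3 : (x.2 : ℝ) ≤ F (x.1 + c) := by exact_mod_cast h2
    refine h3.trans ((hFL _).trans ?_)
    push_cast
    exact le_rfl
  · obtain ⟨x₀, hx₀, hx₀'⟩ := hne
    have h1 := hsub.tendsto_lim hbd
    have h2 : ∀ᶠ n : ℕ in atTop, u n / n < hsub.lim + ε :=
      h1.eventually (gt_mem_nhds (by linarith))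
    filter_upwards [h2, eventually_ge_atTop (x₀.1 + c), eventually_gt_atTop 0] with n h3 h4 h5
    have h6 : 0 < f n := lt_of_lt_of_le hx₀' (hle n x₀ hx₀ h4)
    obtain ⟨x, hx, hxn, hx'⟩ := hatt n h6
    refine ⟨x, hx, by omega, ?_⟩
    have hn' : (0 : ℝ) < n := by exact_mod_cast h5
    rw [div_lt_iff₀ hn'] at h3
    have h7 : F n = f n := max_eq_right h6
    have h8 : (0 : ℝ) < f n := by exact_mod_cast h6
    rw [hx', ← Real.le_log_iff_exp_le h8]
    simp only [hu, h7] at h3
    rw [hL]
    linarith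

/-! ## Values -/

section

variable {A : Type} {rank : A → ℕ} {Q : Type} [Fintype Q] (M : Aut rank Q)

/-- The sum of the weights of the runs on `t` with the state `q` at the root. -/
noncomputable def v : Tree rank → Q → ℕ
  | .node a ts, q => ∑ r : Fin (rank a) → Q, M.μ a r q * ∏ i, v (ts i) (r i)

theorem v_node (a : A) (ts : Fin (rank a) → Tree rank) (q : Q) :
    v M (.node a ts) q = ∑ r : Fin (rank a) → Q, M.μ a r q * ∏ i, v M (ts i) (r i) := rfl

open Classical in
theorem v_eq (t : Tree rank) (q : Q) :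
    v M t q = ∑ ρ : Run Q t, if rootState t ρ = q then weight M t ρ else 0 := by
  induction t generalizing q with
  | node a ts ih =>
    have h1 : ∑ ρ : Run Q (.node a ts), (if rootState (.node a ts) ρ = q then
        weight M (.node a ts) ρ else 0) =
        ∑ ρ : Q × ((i : Fin (rank a)) → Run Q (ts i)), (if ρ.1 = q then
          M.μ a (fun i => rootState (ts i) (ρ.2 i)) ρ.1 * ∏ i, weight M (ts i) (ρ.2 i) else 0) := rfl
    rw [h1, Fintype.sum_prod_type, Finset.sum_comm]
    simp only [Finset.sum_ite_eq', Finset.mem_univ, if_true]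
    rw [v_node]
    simp only [ih]
    have h2 : ∀ r : Fin (rank a) → Q, ∏ i, ∑ ρ : Run Q (ts i),
        (if rootState (ts i) ρ = r i then weight M (ts i) ρ else 0) =
        ∑ ρ : (i : Fin (rank a)) → Run Q (ts i), if (fun i => rootState (ts i) (ρ i)) = r then
          ∏ i, weight M (ts i) (ρ i) else 0 := by
      intro r
      rw [Fintype.prod_sum]
      refine Finset.sum_congr rfl fun ρ _ => ?_
      by_cases h : (fun i => rootState (ts i) (ρ i)) = r
      · rw [if_pos h]
        exact Finset.prod_congr rfl fun i _ => if_pos (congrFun h i)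
      · rw [if_neg h]
        obtain ⟨i, hi⟩ : ∃ i, rootState (ts i) (ρ i) ≠ r i := by
          by_contra hcon
          push Not at hcon
          exact h (funext hcon)
        exact Finset.prod_eq_zero (Finset.mem_univ i) (if_neg hi)
    simp only [h2, Finset.mul_sum]
    rw [Finset.sum_comm]
    refine Finset.sum_congr rfl fun ρ _ => ?_
    simp

theorem value_eq (t : Tree rank) : value M t = ∑ q, v M t q * M.final q := by
  classical
  simp only [v_eq, Finset.sum_mul]
  rw [Finset.sum_comm, value]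
  refine Finset.sum_congr rfl fun ρ _ => ?_
  simp

/-- A bound for the weights. -/
noncomputable def bnd [Fintype A] : ℕ := 1 + ∑ a : A, ∑ q : Q, ∑ r : Fin (rank a) → Q, M.μ a r q

theorem one_le_bnd [Fintype A] : 1 ≤ bnd M := Nat.le_add_right _ _

theorem sum_le_bnd [Fintype A] (a : A) (q : Q) : ∑ r : Fin (rank a) → Q, M.μ a r q ≤ bnd M := by
  have h1 : ∑ r : Fin (rank a) → Q, M.μ a r q ≤ ∑ q : Q, ∑ r : Fin (rank a) → Q, M.μ a r q :=
    Finset.single_le_sum (f := fun q => ∑ r : Fin (rank a) → Q, M.μ a r q)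
      (fun _ _ => Nat.zero_le _) (Finset.mem_univ q)
  have h2 : ∑ q : Q, ∑ r : Fin (rank a) → Q, M.μ a r q ≤
      ∑ a : A, ∑ q : Q, ∑ r : Fin (rank a) → Q, M.μ a r q :=
    Finset.single_le_sum (f := fun a => ∑ q : Q, ∑ r : Fin (rank a) → Q, M.μ a r q)
      (fun _ _ => Nat.zero_le _) (Finset.mem_univ a)
  unfold bnd
  omega

theorem v_le [Fintype A] (t : Tree rank) (q : Q) : v M t q ≤ bnd M ^ size t := by
  induction t generalizing q with
  | node a ts ih =>
    rw [v_node, size, pow_add, pow_one, ← Finset.prod_pow_eq_pow_sum]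
    calc ∑ r : Fin (rank a) → Q, M.μ a r q * ∏ i, v M (ts i) (r i)
        ≤ ∑ r : Fin (rank a) → Q, M.μ a r q * ∏ i, bnd M ^ size (ts i) :=
          Finset.sum_le_sum fun r _ => Nat.mul_le_mul_left _
            (Finset.prod_le_prod' fun i _ => ih i _)
      _ = (∑ r : Fin (rank a) → Q, M.μ a r q) * ∏ i, bnd M ^ size (ts i) := by
          rw [Finset.sum_mul]
      _ ≤ _ := Nat.mul_le_mul_right _ (sum_le_bnd M a q)

/-! ## Contexts -/

variable [DecidableEq Q]

/-- The transfer matrix of a node with a hole at the child `i`. -/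
noncomputable def T (a : A) (i : Fin (rank a)) (ts : Fin (rank a) → Tree rank) : Matrix Q Q ℕ :=
  fun q p => ∑ r : Fin (rank a) → Q,
    if r i = p then M.μ a r q * ∏ j ∈ Finset.univ.erase i, v M (ts j) (r j) else 0

/-- The transfer matrices of contexts with their sizes. -/
inductive IsCtx : ℕ → Matrix Q Q ℕ → Prop
  | hole : IsCtx 0 1
  | step (k : ℕ) (W : Matrix Q Q ℕ) (a : A) (i : Fin (rank a)) (ts : Fin (rank a) → Tree rank) :
      IsCtx k W → IsCtx (k + (1 + ∑ j ∈ Finset.univ.erase i, size (ts j))) (W * T M a i ts)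

theorem IsCtx.comp {k l : ℕ} {W W' : Matrix Q Q ℕ} (h : IsCtx M k W) (h' : IsCtx M l W') :
    IsCtx M (k + l) (W * W') := by
  induction h' with
  | hole => rw [mul_one]; exact h
  | step l W' a i ts _ ih =>
    rw [← mul_assoc, ← add_assoc]
    exact IsCtx.step _ _ a i ts ih

theorem v_update (a : A) (i : Fin (rank a)) (ts : Fin (rank a) → Tree rank) (t : Tree rank) (q : Q) :
    v M (.node a (Function.update ts i t)) q = ∑ p, T M a i ts q p * v M t p := by
  have h1 : ∀ p, T M a i ts q p * v M t p = ∑ r : Fin (rank a) → Q,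
      if r i = p then M.μ a r q * (∏ j ∈ Finset.univ.erase i, v M (ts j) (r j)) * v M t p
        else 0 := by
    intro p
    rw [T, Finset.sum_mul]
    exact Finset.sum_congr rfl fun r _ => by split_ifs <;> simp
  simp only [h1]
  rw [Finset.sum_comm, v_node]
  refine Finset.sum_congr rfl fun r _ => ?_
  rw [Finset.sum_ite_eq, if_pos (Finset.mem_univ _), ← Finset.mul_prod_erase _ _ (Finset.mem_univ i),
    Function.update_self, mul_assoc, mul_comm (v M t (r i))]
  congr 2
  refine Finset.prod_congr rfl fun j hj => ?_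
  rw [Function.update_of_ne (Finset.ne_of_mem_erase hj)]

theorem size_update (a : A) (i : Fin (rank a)) (ts : Fin (rank a) → Tree rank) (t : Tree rank) :
    size (.node a (Function.update ts i t)) =
      (1 + ∑ j ∈ Finset.univ.erase i, size (ts j)) + size t := by
  rw [size, ← Finset.add_sum_erase _ _ (Finset.mem_univ i), Function.update_self,
    Finset.sum_congr rfl fun j hj => by rw [Function.update_of_ne (Finset.ne_of_mem_erase hj)]]
  ring

theorem IsCtx.plug {k : ℕ} {W : Matrix Q Q ℕ} (h : IsCtx M k W) (t : Tree rank) :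
    ∃ t', size t' = k + size t ∧ ∀ q, v M t' q = ∑ p, W q p * v M t p := by
  induction h generalizing t with
  | hole =>
    refine ⟨t, by simp, fun q => ?_⟩
    simp [Matrix.one_apply]
  | step k W a i ts _ ih =>
    obtain ⟨t', h1, h2⟩ := ih (.node a (Function.update ts i t))
    refine ⟨t', ?_, fun q => ?_⟩
    · rw [h1, size_update]
      ring
    · rw [h2]
      simp only [v_update, Matrix.mul_apply, Finset.mul_sum, Finset.sum_mul]
      rw [Finset.sum_comm]
      exact Finset.sum_congr rfl fun p _ => Finset.sum_congr rfl fun x _ => (mul_assoc _ _ _).symm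

theorem IsCtx.plug_le {k : ℕ} {W : Matrix Q Q ℕ} (h : IsCtx M k W) (t : Tree rank) :
    ∃ t', size t' = k + size t ∧ ∀ q p, W q p * v M t p ≤ v M t' q := by
  obtain ⟨t', h1, h2⟩ := h.plug M t
  refine ⟨t', h1, fun q p => ?_⟩
  rw [h2]
  exact Finset.single_le_sum (f := fun p => W q p * v M t p) (fun _ _ => Nat.zero_le _)
    (Finset.mem_univ p)

theorem T_bound [Fintype A] (a : A) (i : Fin (rank a)) (ts : Fin (rank a) → Tree rank) (q : Q) :
    ∑ p, T M a i ts q p ≤ bnd M ^ (1 + ∑ j ∈ Finset.univ.erase i, size (ts j)) := by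
  unfold T
  rw [Finset.sum_comm]
  simp only [Finset.sum_ite_eq, Finset.mem_univ, if_true]
  rw [pow_add, pow_one, ← Finset.prod_pow_eq_pow_sum]
  calc ∑ r : Fin (rank a) → Q, M.μ a r q * ∏ j ∈ Finset.univ.erase i, v M (ts j) (r j)
      ≤ ∑ r : Fin (rank a) → Q, M.μ a r q * ∏ j ∈ Finset.univ.erase i, bnd M ^ size (ts j) :=
        Finset.sum_le_sum fun r _ => Nat.mul_le_mul_left _
          (Finset.prod_le_prod' fun i _ => v_le M _ _)
    _ = (∑ r : Fin (rank a) → Q, M.μ a r q) * ∏ j ∈ Finset.univ.erase i, bnd M ^ size (ts j) := by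
        rw [Finset.sum_mul]
    _ ≤ _ := Nat.mul_le_mul_right _ (sum_le_bnd M a q)

theorem IsCtx.bound [Fintype A] {k : ℕ} {W : Matrix Q Q ℕ} (h : IsCtx M k W) (q : Q) :
    ∑ p, W q p ≤ bnd M ^ k := by
  induction h with
  | hole => simp [Matrix.one_apply]
  | step k W a i ts _ ih =>
    simp only [Matrix.mul_apply]
    rw [Finset.sum_comm, pow_add]
    calc ∑ x, ∑ p, W q x * T M a i ts x p = ∑ x, W q x * ∑ p, T M a i ts x p := by
          simp only [Finset.mul_sum]
      _ ≤ ∑ x, W q x * bnd M ^ (1 + ∑ j ∈ Finset.univ.erase i, size (ts j)) :=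
          Finset.sum_le_sum fun x _ => Nat.mul_le_mul_left _ (T_bound M a i ts x)
      _ = (∑ x, W q x) * bnd M ^ (1 + ∑ j ∈ Finset.univ.erase i, size (ts j)) := by
          rw [Finset.sum_mul]
      _ ≤ _ := Nat.mul_le_mul_right _ ih

/-! ## Reachability -/

/-- The state `p` can be reached from the state `q`. -/
def Reach (q p : Q) : Prop := ∃ k W, IsCtx M k W ∧ 0 < W q p

/-- Some tree has a run with the state `q` at the root and positive weight. -/
def Productive (q : Q) : Prop := ∃ t, 0 < v M t q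

theorem Reach.refl (q : Q) : Reach M q q := ⟨0, 1, IsCtx.hole, by simp⟩

theorem mul_le_mul_apply (W W' : Matrix Q Q ℕ) (q p x : Q) :
    W q p * W' p x ≤ (W * W') q x := by
  rw [Matrix.mul_apply]
  exact Finset.single_le_sum (f := fun p => W q p * W' p x) (fun _ _ => Nat.zero_le _)
    (Finset.mem_univ p)

theorem Reach.trans {q p x : Q} (h : Reach M q p) (h' : Reach M p x) : Reach M q x := by
  obtain ⟨k, W, h1, h2⟩ := h
  obtain ⟨k', W', h1', h2'⟩ := h'
  exact ⟨_, _, h1.comp M h1', lt_of_lt_of_le (Nat.mul_pos h2 h2') (mul_le_mul_apply W W' q p x)⟩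

theorem reach_child {a : A} {r : Fin (rank a) → Q} {q : Q} {ts : Fin (rank a) → Tree rank}
    (hμ : 0 < M.μ a r q) (hts : ∀ j, 0 < v M (ts j) (r j)) (i : Fin (rank a)) :
    Reach M q (r i) := by
  refine ⟨_, _, IsCtx.step 0 1 a i ts IsCtx.hole, ?_⟩
  rw [one_mul]
  unfold T
  refine lt_of_lt_of_le ?_ (Finset.single_le_sum (f := fun r' : Fin (rank a) → Q =>
    if r' i = r i then M.μ a r' q * ∏ j ∈ Finset.univ.erase i, v M (ts j) (r' j) else 0)
    (fun _ _ => Nat.zero_le _) (Finset.mem_univ r))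
  rw [if_pos rfl]
  exact Nat.mul_pos hμ (Finset.prod_pos fun j _ => hts j)

/-! ## Rates -/

/-- The number `ℓ` is the exponential growth rate of the values for the state `q`. -/
def Rate (q : Q) (ℓ : ℝ) : Prop :=
  0 ≤ ℓ ∧ (∀ ε : ℝ, 0 < ε → ∃ K : ℝ, 0 < K ∧ ∀ t, (v M t q : ℝ) ≤ K * Real.exp ((ℓ + ε) * size t)) ∧
    ∀ ε : ℝ, 0 < ε → ∀ᶠ n : ℕ in atTop, ∃ t, size t ≤ n ∧ Real.exp ((ℓ - ε) * n) ≤ v M t q

/-- A constant shift of the sizes does not matter. -/
theorem shift_lower {q : Q} {ℓ : ℝ} (s : ℕ) (h : ∀ ε : ℝ, 0 < ε → ∀ᶠ n : ℕ in atTop,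
    ∃ t, size t ≤ n + s ∧ Real.exp ((ℓ - ε) * n) ≤ v M t q) (ε : ℝ) (hε : 0 < ε) :
    ∀ᶠ n : ℕ in atTop, ∃ t, size t ≤ n ∧ Real.exp ((ℓ - ε) * n) ≤ v M t q := by
  have h1 := (tendsto_sub_atTop_nat s).eventually (h (ε / 2) (by linarith))
  obtain ⟨N, hN⟩ := exists_nat_ge (2 * |ℓ - ε / 2| * s / ε)
  filter_upwards [h1, eventually_ge_atTop s, eventually_ge_atTop N] with n h2 h3 h4
  obtain ⟨t, ht, ht'⟩ := h2
  refine ⟨t, by omega, le_trans (Real.exp_le_exp.2 ?_) ht'⟩
  have h5 : 2 * |ℓ - ε / 2| * s / ε ≤ n := hN.trans (by exact_mod_cast h4)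
  rw [div_le_iff₀ hε] at h5
  have h6 : (((n - s : ℕ) : ℝ)) = n - s := by
    rw [Nat.cast_sub h3]
  rw [h6]
  have h7 : (ℓ - ε / 2) * s ≤ |ℓ - ε / 2| * s :=
    mul_le_mul_of_nonneg_right (le_abs_self _) (Nat.cast_nonneg _)
  nlinarith

/-- The upper bound: a run has a node with a state in the strongly connected component `C` such that
the states of its children are not in `C`, and the states on the path to this node are in `C`. -/
theorem upper_key [Fintype A] {q₀ : Q} (C : Finset Q) (hC : ∀ p ∈ C, Reach M q₀ p) (x K K' : ℝ)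
    (R : ℕ) (hx : 0 ≤ x) (hK : 1 ≤ K) (hK' : 0 ≤ K') (hR : ∀ a, rank a ≤ R)
    (hlow : ∀ p, Reach M q₀ p → p ∉ C → Productive M p → ∀ t,
      (v M t p : ℝ) ≤ K * Real.exp (x * size t))
    (hctx : ∀ k W, IsCtx M k W → ∀ q ∈ C, (W q₀ q : ℝ) ≤ K' * Real.exp (x * k)) (t : Tree rank) :
    ∀ k W, IsCtx M k W → ((∑ q ∈ C, W q₀ q * v M t q : ℕ) : ℝ) ≤
      (C.card * K' * bnd M * K ^ R) * size t * Real.exp (x * (k + size t)) := by
  induction t with
  | node a ts ih =>
    intro k W hW
    set U : Q → ℕ := fun q => ∑ r ∈ Finset.univ.filter (fun r : Fin (rank a) → Q => ∀ l, r l ∉ C),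
      M.μ a r q * ∏ l, v M (ts l) (r l) with hU
    have h1 : ∀ q, v M (.node a ts) q ≤ U q + ∑ i, ∑ p ∈ C, T M a i ts q p * v M (ts i) p := by
      intro q
      have e1 : ∑ i, ∑ p ∈ C, T M a i ts q p * v M (ts i) p =
          ∑ r : Fin (rank a) → Q, ∑ i, ∑ p ∈ C, (if r i = p then
            M.μ a r q * ∏ j ∈ Finset.univ.erase i, v M (ts j) (r j) else 0) * v M (ts i) p := by
        unfold T
        simp only [Finset.sum_mul]
        symm
        rw [Finset.sum_comm]
        refine Finset.sum_congr rfl fun i _ => ?_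
        exact Finset.sum_comm
      rw [e1, v_node, hU]
      dsimp only
      rw [Finset.sum_filter, ← Finset.sum_add_distrib]
      refine Finset.sum_le_sum fun r _ => ?_
      by_cases h : ∀ l, r l ∉ C
      · rw [if_pos h]
        exact Nat.le_add_right _ _
      · push Not at h
        obtain ⟨i, hi⟩ := h
        refine le_trans ?_ (Nat.le_add_left _ _)
        refine le_trans ?_ (Finset.single_le_sum (f := fun i => ∑ p ∈ C, (if r i = p then
            M.μ a r q * ∏ j ∈ Finset.univ.erase i, v M (ts j) (r j) else 0) * v M (ts i) p)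
          (fun _ _ => Nat.zero_le _) (Finset.mem_univ i))
        refine le_trans ?_ (Finset.single_le_sum (f := fun p => (if r i = p then
            M.μ a r q * ∏ j ∈ Finset.univ.erase i, v M (ts j) (r j) else 0) * v M (ts i) p)
          (fun _ _ => Nat.zero_le _) hi)
        rw [if_pos rfl, ← Finset.mul_prod_erase _ _ (Finset.mem_univ i)]
        exact le_of_eq (by ring)
    have h2 : ∀ q ∈ C, (U q : ℝ) ≤ bnd M * K ^ R *
        Real.exp (x * ((∑ l, size (ts l) : ℕ) : ℝ)) := by
      intro q hq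
      have hterm : ∀ r ∈ Finset.univ.filter (fun r : Fin (rank a) → Q => ∀ l, r l ∉ C),
          ((M.μ a r q * ∏ l, v M (ts l) (r l) : ℕ) : ℝ) ≤
            M.μ a r q * (K ^ R * Real.exp (x * ((∑ l, size (ts l) : ℕ) : ℝ))) := by
        intro r hr
        have hr' : ∀ l, r l ∉ C := (Finset.mem_filter.1 hr).2
        rcases Nat.eq_zero_or_pos (M.μ a r q * ∏ l, v M (ts l) (r l)) with h0 | h0
        · rw [h0]
          push_cast
          positivity
        · have hμ : 0 < M.μ a r q := Nat.pos_of_mul_pos_right h0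
          have hv : 0 < ∏ l, v M (ts l) (r l) := Nat.pos_of_mul_pos_left h0
          have hv' : ∀ l, 0 < v M (ts l) (r l) := fun l => by
            by_contra hcon
            rw [Finset.prod_eq_zero (Finset.mem_univ l) (by omega)] at hv
            exact lt_irrefl _ hv
          rw [Nat.cast_mul, Nat.cast_prod]
          refine mul_le_mul_of_nonneg_left ?_ (Nat.cast_nonneg _)
          calc ∏ l, (v M (ts l) (r l) : ℝ) ≤ ∏ l, (K * Real.exp (x * size (ts l))) := by
                refine Finset.prod_le_prod (fun _ _ => Nat.cast_nonneg _) fun l _ => ?_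
                exact hlow (r l) ((hC q hq).trans M (reach_child M hμ hv' l)) (hr' l)
                  ⟨ts l, hv' l⟩ (ts l)
            _ = K ^ rank a * Real.exp (x * ((∑ l, size (ts l) : ℕ) : ℝ)) := by
                rw [Finset.prod_mul_distrib, Finset.prod_const, Finset.card_univ, Fintype.card_fin,
                  ← Real.exp_sum]
                push_cast
                rw [Finset.mul_sum]
            _ ≤ _ := mul_le_mul_of_nonneg_right (pow_le_pow_right₀ hK (hR a)) (Real.exp_pos _).le
      have e2 : (U q : ℝ) ≤ ∑ r : Fin (rank a) → Q,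
          (M.μ a r q : ℝ) * (K ^ R * Real.exp (x * ((∑ l, size (ts l) : ℕ) : ℝ))) := by
        rw [hU]
        dsimp only
        rw [Nat.cast_sum]
        refine (Finset.sum_le_sum hterm).trans ?_
        exact Finset.sum_le_sum_of_subset_of_nonneg (Finset.filter_subset _ _)
          fun _ _ _ => by positivity
      rw [← Finset.sum_mul] at e2
      refine e2.trans ?_
      rw [mul_assoc]
      refine mul_le_mul_of_nonneg_right ?_ (by positivity)
      exact_mod_cast sum_le_bnd M a q
    have h3 : ∑ q ∈ C, W q₀ q * v M (.node a ts) q ≤ ∑ q ∈ C, W q₀ q * U q +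
        ∑ i, ∑ p ∈ C, (W * T M a i ts) q₀ p * v M (ts i) p := by
      have e1 : ∑ q ∈ C, W q₀ q * v M (.node a ts) q ≤ ∑ q ∈ C, (W q₀ q * U q +
          W q₀ q * ∑ i, ∑ p ∈ C, T M a i ts q p * v M (ts i) p) :=
        Finset.sum_le_sum fun q _ => by
          rw [← mul_add]
          exact Nat.mul_le_mul_left _ (h1 q)
      refine e1.trans ?_
      rw [Finset.sum_add_distrib]
      refine Nat.add_le_add_left ?_ _
      simp only [Finset.mul_sum]
      rw [Finset.sum_comm]
      refine Finset.sum_le_sum fun i _ => ?_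
      rw [Finset.sum_comm]
      refine Finset.sum_le_sum fun p _ => ?_
      rw [Matrix.mul_apply, Finset.sum_mul]
      simp only [← mul_assoc]
      exact Finset.sum_le_sum_of_subset (Finset.subset_univ _)
    have h4 : ∀ i, ((∑ p ∈ C, (W * T M a i ts) q₀ p * v M (ts i) p : ℕ) : ℝ) ≤
        (C.card * K' * bnd M * K ^ R) * size (ts i) *
          Real.exp (x * (k + size (.node a ts))) := by
      intro i
      refine (ih i _ _ (IsCtx.step k W a i ts hW)).trans (le_of_eq ?_)
      congr 3
      rw [size, ← Finset.add_sum_erase _ _ (Finset.mem_univ i)]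
      push_cast
      ring
    have h5 : ((∑ q ∈ C, W q₀ q * U q : ℕ) : ℝ) ≤
        (C.card * K' * bnd M * K ^ R) * Real.exp (x * (k + size (.node a ts))) := by
      push_cast
      have e1 : ∀ q ∈ C, (W q₀ q : ℝ) * U q ≤
          K' * bnd M * K ^ R * Real.exp (x * (k + size (.node a ts))) := by
        intro q hq
        calc (W q₀ q : ℝ) * U q ≤ (K' * Real.exp (x * k)) *
              (bnd M * K ^ R * Real.exp (x * ((∑ l, size (ts l) : ℕ) : ℝ))) :=
              mul_le_mul (hctx k W hW q hq) (h2 q hq) (Nat.cast_nonneg _) (by positivity)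
          _ = K' * bnd M * K ^ R * Real.exp (x * (k + ∑ l, (size (ts l) : ℝ))) := by
              rw [mul_add, Real.exp_add]
              push_cast
              ring
          _ ≤ _ := by
              refine mul_le_mul_of_nonneg_left (Real.exp_le_exp.2 ?_) (by positivity)
              refine mul_le_mul_of_nonneg_left ?_ hx
              rw [size]
              push_cast
              linarith
      refine (Finset.sum_le_card_nsmul _ _ _ e1).trans (le_of_eq ?_)
      rw [nsmul_eq_mul]
      ring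
    have h6 : ((∑ q ∈ C, W q₀ q * v M (.node a ts) q : ℕ) : ℝ) ≤
        ((∑ q ∈ C, W q₀ q * U q : ℕ) : ℝ) +
        ∑ i, ((∑ p ∈ C, (W * T M a i ts) q₀ p * v M (ts i) p : ℕ) : ℝ) := by
      rw [← Nat.cast_sum, ← Nat.cast_add]
      exact_mod_cast h3
    refine h6.trans ((add_le_add h5 (Finset.sum_le_sum fun i _ => h4 i)).trans (le_of_eq ?_))
    rw [← Finset.sum_mul, ← Finset.mul_sum]
    have e3 : ((size (.node a ts) : ℕ) : ℝ) = 1 + ∑ i, (size (ts i) : ℝ) := by
      rw [size]
      push_cast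
      rfl
    rw [e3]
    ring

theorem exists_rate [Finite A] : ∀ (n : ℕ) (q₀ : Q), Nat.card {p // Reach M q₀ p} = n →
    Productive M q₀ → ∃ ℓ, Rate M q₀ ℓ := by
  classical
  have := Fintype.ofFinite A
  intro n
  induction n using Nat.strong_induction_on with
  | _ n ihn =>
    intro q₀ hn hp
    set C : Finset Q := Finset.univ.filter fun p => Reach M q₀ p ∧ Reach M p q₀ with hC
    have hCmem : ∀ p, p ∈ C ↔ Reach M q₀ p ∧ Reach M p q₀ := fun p => by simp [hC]
    have hq₀ : q₀ ∈ C := (hCmem _).2 ⟨Reach.refl M q₀, Reach.refl M q₀⟩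
    set Low : Finset Q := Finset.univ.filter fun p => Reach M q₀ p ∧ p ∉ C ∧ Productive M p with hLow
    have hLowmem : ∀ p, p ∈ Low ↔ Reach M q₀ p ∧ p ∉ C ∧ Productive M p := fun p => by simp [hLow]
    have hrate : ∀ p, ∃ ℓ, p ∈ Low → Rate M p ℓ := by
      intro p
      by_cases hpL : p ∈ Low
      · obtain ⟨h1, h2, h3⟩ := (hLowmem p).1 hpL
        have h4 : ¬ Reach M p q₀ := fun h => h2 ((hCmem p).2 ⟨h1, h⟩)
        have h5 : Nat.card {x // Reach M p x} < n := by
          rw [← hn, Nat.card_eq_fintype_card, Nat.card_eq_fintype_card, Fintype.card_subtype,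
            Fintype.card_subtype]
          refine Finset.card_lt_card ((Finset.ssubset_iff_of_subset ?_).2 ⟨q₀, ?_, ?_⟩)
          · intro x hx
            simp only [Finset.mem_filter, Finset.mem_univ, true_and] at hx ⊢
            exact h1.trans M hx
          · simp only [Finset.mem_filter, Finset.mem_univ, true_and]
            exact Reach.refl M q₀
          · simp only [Finset.mem_filter, Finset.mem_univ, true_and]
            exact h4
        obtain ⟨ℓ, hℓ⟩ := ihn _ h5 p rfl h3
        exact ⟨ℓ, fun _ => hℓ⟩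
      · exact ⟨0, fun h => absurd h hpL⟩
    choose ℓ hℓ using hrate
    obtain ⟨η, hη0, hη1, hη2⟩ := fekete {x | ∃ W, IsCtx M x.1 W ∧ x.2 = W q₀ q₀} (bnd M) 0
      (one_le_bnd M)
      (by
        rintro ⟨k, m⟩ ⟨W, hW, rfl⟩
        exact (Finset.single_le_sum (f := fun p => W q₀ p) (fun _ _ => Nat.zero_le _)
          (Finset.mem_univ q₀)).trans (hW.bound M q₀))
      ⟨(0, 1), ⟨1, IsCtx.hole, by simp⟩, by simp⟩
      (by
        rintro ⟨k, m⟩ ⟨W, hW, rfl⟩ ⟨k', m'⟩ ⟨W', hW', rfl⟩
        exact ⟨(k + k', (W * W') q₀ q₀), ⟨W * W', hW.comp M hW', rfl⟩, le_rfl,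
          mul_le_mul_apply W W' q₀ q₀ q₀⟩)
    have hη1' : ∀ k W, IsCtx M k W → (W q₀ q₀ : ℝ) ≤ Real.exp (η * k) := by
      intro k W hW
      have := hη1 (k, W q₀ q₀) ⟨W, hW, rfl⟩
      simpa using this
    set F : Finset ℝ := insert η (Low.image ℓ) with hF
    have hFne : F.Nonempty := ⟨η, Finset.mem_insert_self _ _⟩
    set ℓs : ℝ := F.max' hFne with hℓs
    have hηℓ : η ≤ ℓs := F.le_max' _ (Finset.mem_insert_self _ _)
    have hℓℓ : ∀ p ∈ Low, ℓ p ≤ ℓs := fun p hp =>
      F.le_max' _ (Finset.mem_insert_of_mem (Finset.mem_image_of_mem _ hp))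
    refine ⟨ℓs, hη0.trans hηℓ, fun ε hε => ?_, ?_⟩
    · have hKf : ∀ p, ∃ K : ℝ, 0 < K ∧ (p ∈ Low → ∀ t, (v M t p : ℝ) ≤
          K * Real.exp ((ℓ p + ε / 2) * size t)) := by
        intro p
        by_cases hpL : p ∈ Low
        · obtain ⟨K, hK, hK'⟩ := (hℓ p hpL).2.1 (ε / 2) (by linarith)
          exact ⟨K, hK, fun _ => hK'⟩
        · exact ⟨1, one_pos, fun h => absurd h hpL⟩
      choose Kf hKf0 hKf using hKf
      set K : ℝ := 1 + ∑ p, Kf p with hK
      have hKf1 : ∀ p, Kf p ≤ K := by
        intro p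
        have := Finset.single_le_sum (f := Kf) (fun p _ => (hKf0 p).le) (Finset.mem_univ p)
        rw [hK]
        linarith
      have hK1 : 1 ≤ K := by
        have : 0 ≤ ∑ p, Kf p := Finset.sum_nonneg fun p _ => (hKf0 p).le
        rw [hK]
        linarith
      set x : ℝ := ℓs + ε / 2 with hx
      have hx0 : 0 ≤ x := by rw [hx]; linarith
      have hret : ∀ q, ∃ k W, IsCtx M k W ∧ (q ∈ C → 0 < W q q₀) := by
        intro q
        by_cases hq : q ∈ C
        · obtain ⟨k, W, h1, h2⟩ := ((hCmem q).1 hq).2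
          exact ⟨k, W, h1, fun _ => h2⟩
        · exact ⟨0, 1, IsCtx.hole, fun h => absurd h hq⟩
      choose kk WW hWW1 hWW2 using hret
      obtain ⟨R, hR⟩ : ∃ R : ℕ, ∀ a, rank a ≤ R :=
        ⟨∑ a, rank a, fun a => Finset.single_le_sum (f := rank) (fun _ _ => Nat.zero_le _)
          (Finset.mem_univ a)⟩
      have main := upper_key M C (fun p hp => ((hCmem p).1 hp).1) x K
        (Real.exp (η * ∑ q, kk q)) R hx0 hK1 (Real.exp_pos _).le hR
        (by
          intro p h1 h2 h3 t
          have hpL : p ∈ Low := (hLowmem p).2 ⟨h1, h2, h3⟩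
          refine (hKf p hpL t).trans ?_
          refine mul_le_mul (hKf1 p) (Real.exp_le_exp.2 ?_) (Real.exp_pos _).le (by linarith)
          refine mul_le_mul_of_nonneg_right ?_ (Nat.cast_nonneg _)
          rw [hx]
          linarith [hℓℓ p hpL])
        (by
          intro k W hW q hq
          have h1 : W q₀ q ≤ (W * WW q) q₀ q₀ :=
            (Nat.le_mul_of_pos_right _ (hWW2 q hq)).trans (mul_le_mul_apply W (WW q) q₀ q q₀)
          have h2 := hη1' _ _ (hW.comp M (hWW1 q))
          have h3 : (W q₀ q : ℝ) ≤ ((W * WW q) q₀ q₀ : ℕ) := by exact_mod_cast h1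
          refine h3.trans (h2.trans ?_)
          rw [← Real.exp_add]
          refine Real.exp_le_exp.2 ?_
          have h4 : (kk q : ℝ) ≤ ∑ q, (kk q : ℝ) :=
            Finset.single_le_sum (f := fun q => (kk q : ℝ)) (fun _ _ => Nat.cast_nonneg _)
              (Finset.mem_univ q)
          have h5 : η * kk q ≤ η * ∑ q, (kk q : ℝ) := mul_le_mul_of_nonneg_left h4 hη0
          have h6 : η * k ≤ x * k := by
            refine mul_le_mul_of_nonneg_right ?_ (Nat.cast_nonneg _)
            rw [hx]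
            linarith
          push_cast
          linarith)
      set D : ℝ := C.card * Real.exp (η * ∑ q, kk q) * bnd M * K ^ R with hD
      have hD0 : 0 ≤ D := by positivity
      refine ⟨D * (2 / ε) + 1, by positivity, fun t => ?_⟩
      have h1 := main t 0 1 IsCtx.hole
      have h2 : ∑ q ∈ C, (1 : Matrix Q Q ℕ) q₀ q * v M t q = v M t q₀ := by
        simp [Matrix.one_apply, hq₀]
      rw [h2] at h1
      push_cast at h1
      rw [zero_add] at h1
      have h3 : (size t : ℝ) ≤ 2 / ε * Real.exp (ε / 2 * size t) := by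
        have h4 := Real.add_one_le_exp (ε / 2 * (size t : ℝ))
        have h5 : ε / 2 * (size t : ℝ) ≤ Real.exp (ε / 2 * size t) := by linarith
        rw [div_mul_eq_mul_div, le_div_iff₀ hε]
        linarith
      calc (v M t q₀ : ℝ) ≤ D * size t * Real.exp (x * size t) := h1
        _ ≤ D * (2 / ε * Real.exp (ε / 2 * size t)) * Real.exp (x * size t) := by gcongr
        _ = D * (2 / ε) * Real.exp ((ℓs + ε) * size t) := by
            rw [hx, ← mul_assoc, mul_assoc, ← Real.exp_add]
            ring_nf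
        _ ≤ (D * (2 / ε) + 1) * Real.exp ((ℓs + ε) * size t) := by
            refine mul_le_mul_of_nonneg_right ?_ (Real.exp_pos _).le
            linarith
    · have hmem : ℓs ∈ F := F.max'_mem hFne
      rw [hF, Finset.mem_insert] at hmem
      rcases hmem with h | h
      · obtain ⟨t₀, ht₀⟩ := hp
        rw [h]
        refine shift_lower M (size t₀) fun ε hε => ?_
        filter_upwards [hη2 ε hε] with n hn
        obtain ⟨⟨k, m⟩, ⟨W, hW, rfl⟩, hk, hWn⟩ := hn
        obtain ⟨t, ht, ht'⟩ := hW.plug_le M t₀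
        refine ⟨t, ?_, hWn.trans ?_⟩
        · rw [ht]
          exact Nat.add_le_add_right hk _
        · have : W q₀ q₀ ≤ v M t q₀ := (Nat.le_mul_of_pos_right _ ht₀).trans (ht' q₀ q₀)
          exact_mod_cast this
      · obtain ⟨p, hpL, hpℓ⟩ := Finset.mem_image.1 h
        rw [← hpℓ]
        obtain ⟨k, W, hW, hWp⟩ := ((hLowmem p).1 hpL).1
        refine shift_lower M k fun ε hε => ?_
        filter_upwards [(hℓ p hpL).2.2 ε hε] with n hn
        obtain ⟨t, ht, ht'⟩ := hn
        obtain ⟨t', h1, h2⟩ := hW.plug_le M t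
        refine ⟨t', by omega, ht'.trans ?_⟩
        have : v M t p ≤ v M t' q₀ := (Nat.le_mul_of_pos_left _ hWp).trans (h2 q₀ p)
        exact_mod_cast this

theorem exists_growth_rate [Finite A] (hM : ExpGrowth (growth M)) :
    ∃ ℓ : ℝ, 0 < ℓ ∧ Tendsto (fun n : ℕ => Real.log (growth M n) / n) atTop (𝓝 ℓ) ∧
      ∀ᶠ n : ℕ in atTop, 0 < growth M n := by
  classical
  have := Fintype.ofFinite A
  obtain ⟨c₁, c₂, hc₁, hc₂, hgr⟩ := hM
  have hpos : ∀ᶠ n : ℕ in atTop, 0 < growth M n := by
    filter_upwards [hgr] with n hn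
    have : (0 : ℝ) < growth M n := lt_of_lt_of_le (by positivity) hn.1
    exact_mod_cast this
  have hval : ∀ t : Tree rank, value M t ≤ (∑ q, M.final q) * bnd M ^ size t := by
    intro t
    rw [value_eq, Finset.sum_mul]
    exact Finset.sum_le_sum fun q _ => by
      rw [mul_comm]
      exact Nat.mul_le_mul_left _ (v_le M t q)
  have hbdd : ∀ n, BddAbove {x | ∃ t : Tree rank, size t ≤ n ∧ value M t = x} := by
    intro n
    refine ⟨(∑ q, M.final q) * bnd M ^ n, ?_⟩
    rintro x ⟨t, ht, rfl⟩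
    exact (hval t).trans (Nat.mul_le_mul_left _ (Nat.pow_le_pow_right (one_le_bnd M) ht))
  have hle : ∀ n (t : Tree rank), size t ≤ n → value M t ≤ growth M n := fun n t ht =>
    le_csSup (hbdd n) ⟨t, ht, rfl⟩
  have hatt : ∀ n, 0 < growth M n → ∃ t : Tree rank, size t ≤ n ∧ value M t = growth M n := by
    intro n hn
    have hne' : {x | ∃ t : Tree rank, size t ≤ n ∧ value M t = x}.Nonempty := by
      by_contra h
      rw [Set.not_nonempty_iff_eq_empty] at h
      simp only [growth, h] at hn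
      simp at hn
    exact Nat.sSup_mem hne' (hbdd n)
  set S : Finset Q := Finset.univ.filter fun q => 0 < M.final q ∧ Productive M q with hS
  have hSmem : ∀ q, q ∈ S ↔ 0 < M.final q ∧ Productive M q := fun q => by simp [hS]
  have hSne : S.Nonempty := by
    obtain ⟨n, hn⟩ := hpos.exists
    obtain ⟨t, -, ht⟩ := hatt n hn
    rw [← ht, value_eq] at hn
    obtain ⟨q, -, hq⟩ := Finset.exists_ne_zero_of_sum_ne_zero hn.ne'
    refine ⟨q, (hSmem q).2 ⟨?_, t, ?_⟩⟩
    · exact Nat.pos_of_ne_zero (right_ne_zero_of_mul hq)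
    · exact Nat.pos_of_ne_zero (left_ne_zero_of_mul hq)
  have hrate : ∀ q, ∃ ℓ, q ∈ S → Rate M q ℓ := by
    intro q
    by_cases hq : q ∈ S
    · obtain ⟨ℓ, hℓ⟩ := exists_rate M _ q rfl ((hSmem q).1 hq).2
      exact ⟨ℓ, fun _ => hℓ⟩
    · exact ⟨0, fun h => absurd h hq⟩
  choose ℓ hℓ using hrate
  obtain ⟨q₁, hq₁, hmax⟩ := S.exists_max_image ℓ hSne
  -- upper bound
  have hup : ∀ ε : ℝ, 0 < ε → ∃ K : ℝ, 0 < K ∧
      ∀ n, (growth M n : ℝ) ≤ K * Real.exp ((ℓ q₁ + ε) * n) := by
    intro ε hε
    have hKf : ∀ q, ∃ K : ℝ, 0 < K ∧ (q ∈ S → ∀ t, (v M t q : ℝ) ≤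
        K * Real.exp ((ℓ q + ε) * size t)) := by
      intro q
      by_cases hq : q ∈ S
      · obtain ⟨K, hK, hK'⟩ := (hℓ q hq).2.1 ε hε
        exact ⟨K, hK, fun _ => hK'⟩
      · exact ⟨1, one_pos, fun h => absurd h hq⟩
    choose Kf hKf0 hKf using hKf
    have hK0 : 0 ≤ ∑ q, Kf q * M.final q :=
      Finset.sum_nonneg fun q _ => mul_nonneg (hKf0 q).le (Nat.cast_nonneg _)
    refine ⟨1 + ∑ q, Kf q * M.final q, by linarith, fun n => ?_⟩
    rcases Nat.eq_zero_or_pos (growth M n) with h0 | h0
    · rw [h0]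
      push_cast
      positivity
    · obtain ⟨t, ht, ht'⟩ := hatt n h0
      rw [← ht', value_eq]
      push_cast
      have h1 : ∀ q ∈ Finset.univ, (v M t q : ℝ) * M.final q ≤
          Kf q * M.final q * Real.exp ((ℓ q₁ + ε) * n) := by
        intro q _
        by_cases hq : q ∈ S
        · have h2 := hKf q hq t
          have h3 : (ℓ q + ε) * size t ≤ (ℓ q₁ + ε) * n := by
            refine mul_le_mul (by linarith [hmax q hq]) (by exact_mod_cast ht) (Nat.cast_nonneg _) ?_
            have := (hℓ q₁ hq₁).1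
            linarith
          calc (v M t q : ℝ) * M.final q ≤ (Kf q * Real.exp ((ℓ q + ε) * size t)) * M.final q :=
                mul_le_mul_of_nonneg_right h2 (Nat.cast_nonneg _)
            _ ≤ (Kf q * Real.exp ((ℓ q₁ + ε) * n)) * M.final q := by
                refine mul_le_mul_of_nonneg_right ?_ (Nat.cast_nonneg _)
                exact mul_le_mul_of_nonneg_left (Real.exp_le_exp.2 h3) (hKf0 q).le
            _ = _ := by ring
        · have h2 : (v M t q : ℝ) * M.final q = 0 := by
            rcases Nat.eq_zero_or_pos (M.final q) with h3 | h3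
            · rw [h3]; simp
            · rcases Nat.eq_zero_or_pos (v M t q) with h4 | h4
              · rw [h4]; simp
              · exact absurd ((hSmem q).2 ⟨h3, t, h4⟩) hq
          rw [h2]
          have := hKf0 q
          positivity
      refine (Finset.sum_le_sum h1).trans ?_
      rw [← Finset.sum_mul]
      refine mul_le_mul_of_nonneg_right ?_ (Real.exp_pos _).le
      linarith
  -- lower bound
  have hlo : ∀ ε : ℝ, 0 < ε → ∀ᶠ n : ℕ in atTop, Real.exp ((ℓ q₁ - ε) * n) ≤ growth M n := by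
    intro ε hε
    filter_upwards [(hℓ q₁ hq₁).2.2 ε hε] with n hn
    obtain ⟨t, ht, ht'⟩ := hn
    refine ht'.trans ?_
    have h1 : v M t q₁ ≤ value M t := by
      rw [value_eq]
      exact (Nat.le_mul_of_pos_right _ ((hSmem q₁).1 hq₁).1).trans
        (Finset.single_le_sum (f := fun q => v M t q * M.final q) (fun _ _ => Nat.zero_le _)
          (Finset.mem_univ q₁))
    exact_mod_cast h1.trans (hle n t ht)
  have hlim : Tendsto (fun n : ℕ => Real.log (growth M n) / n) atTop (𝓝 (ℓ q₁)) := by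
    rw [Metric.tendsto_atTop']
    intro ε hε
    obtain ⟨K, hK, hK'⟩ := hup (ε / 3) (by linarith)
    have h1 := hlo (ε / 3) (by linarith)
    obtain ⟨N, hN⟩ := exists_nat_ge (3 * |Real.log K| / ε)
    have h2 : ∀ᶠ n : ℕ in atTop, dist (Real.log (growth M n) / n) (ℓ q₁) < ε := by
      filter_upwards [h1, hpos, eventually_gt_atTop 0, eventually_ge_atTop N] with n h3 h4 h5 h6
      have hg : (0 : ℝ) < growth M n := by exact_mod_cast h4
      have hn : (0 : ℝ) < n := by exact_mod_cast h5
      have h7 := (Real.le_log_iff_exp_le hg).2 h3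
      have h8 := Real.log_le_log hg (hK' n)
      rw [Real.log_mul hK.ne' (Real.exp_pos _).ne', Real.log_exp] at h8
      have h9 : 3 * |Real.log K| / ε ≤ n := hN.trans (by exact_mod_cast h6)
      rw [div_le_iff₀ hε] at h9
      have h10 := le_abs_self (Real.log K)
      rw [Real.dist_eq, abs_lt]
      have h11 : 0 < ε * n := mul_pos hε hn
      constructor
      · have h12 : ℓ q₁ - ε < Real.log (growth M n) / n := by
          rw [lt_div_iff₀ hn]
          nlinarith
        linarith
      · rw [sub_lt_iff_lt_add, div_lt_iff₀ hn]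
        nlinarith
    obtain ⟨N', hN'⟩ := eventually_atTop.1 h2
    exact ⟨N', fun n hn => hN' n hn.le⟩
  refine ⟨ℓ q₁, ?_, hlim, hpos⟩
  have h1 : ∀ᶠ n : ℕ in atTop, c₁ * Real.log 2 ≤ Real.log (growth M n) / n := by
    filter_upwards [hgr, eventually_gt_atTop 0] with n hn h0
    have hn' : (0 : ℝ) < n := by exact_mod_cast h0
    rw [le_div_iff₀ hn']
    have h2 := Real.log_le_log (by positivity) hn.1
    rw [Real.log_rpow (by norm_num)] at h2
    linarith
  have h2 := ge_of_tendsto hlim h1
  have h3 : 0 < Real.log 2 := Real.log_pos (by norm_num)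
  exact lt_of_lt_of_le (mul_pos hc₁ h3) h2

end

/-- If the growth function of an `ℕ`-weighted tree automaton over a finite ranked alphabet is
exponential, then it is `ρ ^ (n + o(n))` for some real `ρ > 1`. -/
theorem result : ∀ (A : Type) [Finite A] (rank : A → ℕ) (Q : Type) [Fintype Q] (M : Aut rank Q),
    ExpGrowth (growth M) → ∃ ρ : ℝ, 1 < ρ ∧
      Tendsto (fun n : ℕ => 1 / (n : ℝ) * Real.log (growth M n)) atTop (𝓝 (Real.log ρ)) ∧
      Tendsto (fun n : ℕ => (growth M n : ℝ) ^ (1 / (n : ℝ))) atTop (𝓝 ρ) := by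
  classical
  intro A _ rank Q _ M hM
  obtain ⟨ℓ, hℓ, h1, h2⟩ := exists_growth_rate M hM
  have h3 : Tendsto (fun n : ℕ => 1 / (n : ℝ) * Real.log (growth M n)) atTop (𝓝 ℓ) :=
    h1.congr fun n => by ring
  refine ⟨Real.exp ℓ, Real.one_lt_exp_iff.2 hℓ, by rw [Real.log_exp]; exact h3, ?_⟩
  have h4 := (Real.continuous_exp.tendsto ℓ).comp h3
  refine h4.congr' ?_
  filter_upwards [h2] with n hn
  have hn' : (0 : ℝ) < growth M n := by exact_mod_cast hn
  rw [Real.rpow_def_of_pos hn', Function.comp_apply, mul_comm]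

end Pool.Agent.Results.MP_7772c6_lc.TreeGrowth
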